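import Pool.Agent.Q263.HR.Geo

/-! # Project HR (helper263), job ANG (helper177) -/

set_option autoImplicit false

open scoped Manifold ContDiff Topology
open Set Filter Pool.Agent.H721R2

namespace Q263.HR

universe u v w

section

variable {E : Type u} [NormedAddCommGroup E] [NormedSpace ℝ E] [FiniteDimensional ℝ E]
  {M : Type v} [MetricSpace M] [CompactSpace M] [ChartedSpace E M] [IsManifold 𝓘(ℝ, E) 1 M]
  {F : Type w} [NormedAddCommGroup F] [NormedSpace ℝ F]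

theorem EH.angle {e : M → F} (he : ContMDiff 𝓘(ℝ, E) 𝓘(ℝ, F) 1 e)
    (hinj : ∀ x, Function.Injective (dm E e x))
    {f : M ≃ₜ M} {β : M → E →L[ℝ] ℝ} {R : M → E} {Λ : Set M}
    {Es Eu : M → Submodule ℝ E} {C a : ℝ} (h : EH e f β R Λ Es Eu C a) :
    ∃ K ≥ 1, ∀ x ∈ Λ, ∀ s ∈ Es x, ∀ u ∈ Eu x,
      ‖dm E e x s‖ ≤ K * ‖dm E e x (s + u)‖ ∧ ‖dm E e x u‖ ≤ K * ‖dm E e x (s + u)‖ := by
  have hC := h.C_pos
  have ht1 : Tendsto (fun n : ℕ => C * a ^ n) atTop (𝓝 0) := by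
    have := (tendsto_pow_atTop_nhds_zero_of_lt_one h.a_pos.le h.a_lt).const_mul C
    simpa using this
  obtain ⟨n, hn1⟩ := ((tendsto_order.mp ht1).2 (1 / 4) (by norm_num)).exists
  obtain ⟨B, hB, hBv⟩ := global_bound e he hinj (f^[n]) (iter_smooth f h.smooth n)
  refine ⟨B + 2, by linarith, fun x hx s hs u hu => ?_⟩
  set Ds := dm E e (f^[n] x) (dg E (f^[n]) x s) with hDs
  set Du := dm E e (f^[n] x) (dg E (f^[n]) x u) with hDu
  have h1 : ‖Ds‖ ≤ 1 / 4 * ‖dm E e x s‖ :=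
    (h.hS n x hx s hs).trans (mul_le_mul_of_nonneg_right hn1.le (norm_nonneg _))
  have h2 : 4 * ‖dm E e x u‖ ≤ ‖Du‖ := by
    have h3 := h.hU' n (f^[n] x) (h.inv x hx n) _ (h.mapU n x hx u hu)
    rw [dg_inv (f^[n]) (f.symm^[n]) (iter_smooth f h.smooth n) (iter_smooth _ h.smooth' n)
      (iter_left f n), iter_left] at h3
    have h4 : C * a ^ n * ‖Du‖ ≤ 1 / 4 * ‖Du‖ := mul_le_mul_of_nonneg_right hn1.le (norm_nonneg _)
    linarith
  have h3 : ‖Ds + Du‖ ≤ B * ‖dm E e x (s + u)‖ := by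
    have := hBv x (s + u)
    rwa [map_add, map_add] at this
  have h4 : ‖Du‖ ≤ ‖Ds + Du‖ + ‖Ds‖ := by
    have := norm_sub_le (Ds + Du) Ds
    rwa [add_sub_cancel_left] at this
  have h5 : ‖dm E e x s‖ ≤ ‖dm E e x (s + u)‖ + ‖dm E e x u‖ := by
    have := norm_sub_le (dm E e x (s + u)) (dm E e x u)
    rwa [← map_sub, add_sub_cancel_right] at this
  have h6 := norm_nonneg (dm E e x (s + u))
  have h7 := norm_nonneg (dm E e x u)
  have h8 := norm_nonneg (dm E e x s)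
  have h9 : 0 ≤ B * ‖dm E e x (s + u)‖ := by positivity
  constructor <;> nlinarith

end

theorem ang : S_ANG.{u, v, w} := by
  intro E _ _ _ M _ _ _ hM F _ _ e he β B hβ R B' hR f Λ Es Eu C a h
  haveI : IsManifold 𝓘(ℝ, E) 1 M := IsManifold.of_le (n := ∞) (by simp)
  have he1 : ContMDiff 𝓘(ℝ, E) 𝓘(ℝ, F) 1 e := he.smooth.of_le (by simp)
  obtain ⟨K, hK, hang⟩ := h.angle he1 he.inj
  have hB := hβ.pos
  have hB' := abs_nonneg B'
  have hBB : 0 ≤ B * |B'| := by positivity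
  have hKK : 0 ≤ K * (B * |B'|) := by positivity
  refine ⟨K * (1 + B * |B'|) + B, by nlinarith, fun x hx s hs u hu t => ?_⟩
  set ξ : E := s + u + t • R x with hξ
  have h1 : β x ξ = t := by
    rw [hξ, map_add, map_add, map_smul, h.kerS x hx s hs, h.kerU x hx u hu, h.unit x, smul_eq_mul]
    ring
  have h2 : |t| ≤ B * ‖dm E e x ξ‖ := by
    have := hβ.bd x ξ
    rwa [h1] at this
  have h3 : ‖dm E e x (s + u)‖ ≤ (1 + B * |B'|) * ‖dm E e x ξ‖ := by
    have e1 : dm E e x (s + u) = dm E e x ξ - t • dm E e x (R x) := by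
      rw [hξ, map_add, map_add, map_smul, map_add]
      abel
    rw [e1]
    refine (norm_sub_le _ _).trans ?_
    rw [norm_smul, Real.norm_eq_abs]
    have h4 : |t| * ‖dm E e x (R x)‖ ≤ (B * ‖dm E e x ξ‖) * |B'| :=
      mul_le_mul h2 ((hR x).trans (le_abs_self _)) (norm_nonneg _) (by positivity)
    linarith
  obtain ⟨ha1, ha2⟩ := hang x hx s hs u hu
  have h5 : K * ‖dm E e x (s + u)‖ ≤ (K * (1 + B * |B'|) + B) * ‖dm E e x ξ‖ := by
    have h6 : K * ‖dm E e x (s + u)‖ ≤ K * ((1 + B * |B'|) * ‖dm E e x ξ‖) :=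
      mul_le_mul_of_nonneg_left h3 (by linarith)
    have h7 : 0 ≤ B * ‖dm E e x ξ‖ := by positivity
    linarith
  refine ⟨ha1.trans h5, ha2.trans h5, h2.trans ?_⟩
  refine mul_le_mul_of_nonneg_right ?_ (norm_nonneg _)
  have h8 : 0 ≤ K * (1 + B * |B'|) := by positivity
  linarith

end Q263.HR
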