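import Pool.Agent.Q263.HR.Geo

/-! # Project HR (helper263), job LT (helper177) -/

set_option autoImplicit false

open scoped Manifold ContDiff Topology
open Set Filter Pool.Agent.H721R2

namespace Q263.HR

universe u v w

theorem lt : S_LT.{u, v, w} := by
  intro E _ _ _ M _ _ _ hM F _ _ e he β B hβ R B' hR hunit G hG Λ Es Eu hdec η hη
  haveI : IsManifold 𝓘(ℝ, E) 1 M := IsManifold.of_le (n := ∞) (by simp)
  have he1 : ContMDiff 𝓘(ℝ, E) 𝓘(ℝ, F) 1 e := he.smooth.of_le (by simp)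
  obtain ⟨Bg, hBg, hBgv⟩ := global_bound e he1 he.inj G hG
  have hB := hβ.pos
  have hB' := abs_nonneg B'
  have hA : 0 < 1 + (1 + B) * (1 + Bg) * |B'| := by positivity
  set η' : ℝ := η / (1 + (1 + B) * (1 + Bg) * |B'|) with hη'
  have hη'0 : 0 < η' := by positivity
  have hη'1 : η' * (1 + (1 + B) * (1 + Bg) * |B'|) = η := by
    rw [hη']
    field_simp
  have hP : ∃ r > 0, ∀ y x, dist y x < r → ∀ v : E, ∃ w : E,
      ‖dm E e y v - dm E e x w‖ ≤ η' * ‖dm E e y v‖ ∧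
      ‖dm E e (G y) (dg E G y v) - dm E e (G x) (dg E G x w)‖ ≤ η' * ‖dm E e y v‖ := by
    apply exists_uniform_radius
    intro x₀
    obtain ⟨-, h1⟩ := local_all e he1 he.inj (e ∘ G) (he1.comp hG) x₀
    obtain ⟨W, hW, r, hr, -, -, h2⟩ := h1 η' hη'0
    refine ⟨W, hW, fun y hy x hx v => ?_⟩
    obtain ⟨w, h3, h4⟩ := h2 y hy x hx v
    rw [dm_comp e he1 _ hG, dm_comp e he1 _ hG] at h4
    exact ⟨w, h3, h4⟩
  obtain ⟨r₁, hr₁, hP⟩ := hP
  obtain ⟨r₂, hr₂, hβc⟩ := hβ.cont η' hη'0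
  refine ⟨min r₁ r₂, lt_min hr₁ hr₂, fun x hx y hxy v hv => ?_⟩
  rw [dist_comm] at hxy
  obtain ⟨w, h1, h2⟩ := hP y x (lt_of_lt_of_le hxy (min_le_left _ _)) v
  have h3 := hβc y x (lt_of_lt_of_le hxy (min_le_right _ _)) v w
  set N : ℝ := ‖dm E e y v‖ with hN
  have hN0 : 0 ≤ N := norm_nonneg _
  set t : ℝ := β x w with ht
  have h4 : |t| ≤ (1 + B) * η' * N := by
    rw [hv, zero_sub, abs_neg] at h3
    have h5 : B * ‖dm E e y v - dm E e x w‖ ≤ B * (η' * N) := mul_le_mul_of_nonneg_left h1 hB.le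
    linarith
  obtain ⟨s, hs, u, hu, hsu⟩ := hdec x hx (w - t • R x) (by
    rw [map_sub, map_smul, hunit x, smul_eq_mul, mul_one, ht, sub_self])
  refine ⟨s, hs, u, hu, ?_, ?_⟩
  · have e1 : dm E e y v - dm E e x (s + u) =
        (dm E e y v - dm E e x w) + t • dm E e x (R x) := by
      rw [hsu, map_sub, map_smul]
      abel
    rw [e1]
    refine (norm_add_le _ _).trans ?_
    rw [norm_smul, Real.norm_eq_abs]
    have h6 : |t| * ‖dm E e x (R x)‖ ≤ ((1 + B) * η' * N) * |B'| :=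
      mul_le_mul h4 ((hR x).trans (le_abs_self _)) (norm_nonneg _) (by positivity)
    have h7 : η * N = η' * N + (1 + B) * η' * N * |B'| + (1 + B) * Bg * η' * N * |B'| := by
      rw [← hη'1]
      ring
    have h8 : 0 ≤ (1 + B) * Bg * η' * N * |B'| := by positivity
    linarith
  · have e1 : dm E e (G y) (dg E G y v) - dm E e (G x) (dg E G x (s + u)) =
        (dm E e (G y) (dg E G y v) - dm E e (G x) (dg E G x w)) +
          t • dm E e (G x) (dg E G x (R x)) := by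
      rw [hsu, map_sub, map_smul, map_sub, map_smul]
      abel
    rw [e1]
    refine (norm_add_le _ _).trans ?_
    rw [norm_smul, Real.norm_eq_abs]
    have h5 : ‖dm E e (G x) (dg E G x (R x))‖ ≤ Bg * |B'| :=
      (hBgv x (R x)).trans (mul_le_mul_of_nonneg_left ((hR x).trans (le_abs_self _)) hBg.le)
    have h6 : |t| * ‖dm E e (G x) (dg E G x (R x))‖ ≤ ((1 + B) * η' * N) * (Bg * |B'|) :=
      mul_le_mul h4 h5 (norm_nonneg _) (by positivity)
    have h7 : η * N = η' * N + (1 + B) * η' * N * |B'| + (1 + B) * Bg * η' * N * |B'| := by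
      rw [← hη'1]
      ring
    have h8 : 0 ≤ (1 + B) * η' * N * |B'| := by positivity
    linarith

end Q263.HR
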